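import Mathlib

open scoped symmDiff

namespace Pool.Agent.Results.MP_7de56e_co.LimitOne

/-- An edge colouring of the complete graph `K_n` (on the vertex set `Fin n`) with `k` colours. -/
abbrev EdgeColouring (n k : ℕ) : Type := (⊤ : SimpleGraph (Fin n)).edgeSet → Fin k

/-- The graph `G_j`: the spanning subgraph of `K_n` whose edges are those of colour `j`. -/
def colourClass {n k : ℕ} (c : EdgeColouring n k) (j : Fin k) : SimpleGraph (Fin n) where
  Adj u v := ∃ h : s(u, v) ∈ (⊤ : SimpleGraph (Fin n)).edgeSet, c ⟨s(u, v), h⟩ = j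
  symm := ⟨by
    rintro u v ⟨h, hc⟩
    have h2 : s(v, u) = s(u, v) := Sym2.eq_swap
    refine ⟨h2 ▸ h, ?_⟩
    rw [← hc]
    congr 2⟩
  loopless := ⟨by
    rintro u ⟨h, -⟩
    simp at h⟩

/-- The degree of a vertex in a graph. -/
noncomputable def vdeg {V : Type} (G : SimpleGraph V) (v : V) : ℕ := (G.neighborSet v).ncard

/-- `G` contains a degree-monotone path of order `m`: distinct vertices `p 0, …, p (m-1)`,
consecutive ones adjacent, with weakly increasing degrees in `G`. -/
def HasDegreeMonotonePath {V : Type} (G : SimpleGraph V) (m : ℕ) : Prop :=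
  ∃ p : Fin m → V, Function.Injective p ∧
    ∀ i j : Fin m, (i : ℕ) + 1 = j → G.Adj (p i) (p j) ∧ vdeg G (p i) ≤ vdeg G (p j)

/-- `M_k(m)`: the least `M` such that for every `n ≥ M` and every colouring of the edges of `K_n`
with `k` colours, some colour class contains a degree-monotone path of order `m`. -/
noncomputable def ramseyM (k m : ℕ) : ℕ :=
  sInf {M : ℕ | ∀ n ≥ M, ∀ c : EdgeColouring n k, ∃ j, HasDegreeMonotonePath (colourClass c j) m}

lemma colourClass_adj_of_ne {n k : ℕ} (c : EdgeColouring n k) {u v : Fin n} (h : u ≠ v) :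
    ∃ j, (colourClass c j).Adj u v :=
  ⟨c ⟨s(u, v), by simpa using h⟩, by simpa using h, rfl⟩

lemma path_three {V : Type} {G : SimpleGraph V} {a b c : V} (hab : G.Adj a b) (hbc : G.Adj b c)
    (hac : a ≠ c) (h1 : vdeg G a ≤ vdeg G b) (h2 : vdeg G b ≤ vdeg G c) :
    HasDegreeMonotonePath G 3 := by
  refine ⟨![a, b, c], ?_, ?_⟩
  · intro i j h
    have := hab.ne
    have := hbc.ne
    fin_cases i <;> fin_cases j <;> simp_all
  · intro i j h
    fin_cases i <;> fin_cases j <;> simp_all

/-- upper bound: more than `2^k` vertices force a degree-monotone path of order three -/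
lemma exists_path_of_lt {n k : ℕ} (hn : 2 ^ k < n) (c : EdgeColouring n k) :
    ∃ j, HasDegreeMonotonePath (colourClass c j) 3 := by
  classical
  by_contra hno
  push Not at hno
  -- the vertex is high in colour `j`
  let key : Fin k → Fin n → ℕ ×ₗ Fin n := fun j v => toLex (vdeg (colourClass c j) v, v)
  let hi : Fin n → Fin k → Bool := fun v j =>
    decide (∃ u, (colourClass c j).Adj u v ∧ key j u < key j v)
  have hinj : Function.Injective hi := by
    intro u v huv
    by_contra hne
    wlog hlt : ∃ j, (colourClass c j).Adj u v ∧ key j u < key j v generalizing u v with H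
    · obtain ⟨j, hj⟩ := colourClass_adj_of_ne c hne
      apply H huv.symm (Ne.symm hne)
      refine ⟨j, hj.symm, ?_⟩
      rcases lt_trichotomy (key j u) (key j v) with h | h | h
      · exact absurd ⟨j, hj, h⟩ hlt
      · exfalso
        apply hne
        have := congrArg (fun x => (ofLex x).2) h
        exact this
      · exact h
    obtain ⟨j, hj, hlt⟩ := hlt
    have hv : hi v j = true := by
      simp only [hi, decide_eq_true_eq]
      exact ⟨u, hj, hlt⟩
    rw [← huv] at hv
    simp only [hi, decide_eq_true_eq] at hv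
    obtain ⟨w, hw, hwlt⟩ := hv
    apply hno j
    have hle : ∀ a b, key j a < key j b → vdeg (colourClass c j) a ≤ vdeg (colourClass c j) b := by
      intro a b hab
      rw [Prod.Lex.lt_iff] at hab
      rcases hab with h | h
      · exact le_of_lt h
      · exact le_of_eq h.1
    apply path_three hw hj _ (hle _ _ hwlt) (hle _ _ hlt)
    rintro rfl
    exact lt_irrefl _ (hwlt.trans hlt)
  have := Fintype.card_le_of_injective hi hinj
  simp at this
  omega

lemma ramsey_set_nonempty (k : ℕ) :
    2 ^ k + 1 ∈ {M : ℕ | ∀ n ≥ M, ∀ c : EdgeColouring n k,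
      ∃ j, HasDegreeMonotonePath (colourClass c j) 3} := by
  intro n hn c
  exact exists_path_of_lt (by omega) c

lemma ramseyM_le (k : ℕ) : ramseyM k 3 ≤ 2 ^ k + 1 := Nat.sInf_le (ramsey_set_nonempty k)

lemma lt_ramseyM {n k : ℕ} (c : EdgeColouring n k)
    (hc : ∀ j, ¬ HasDegreeMonotonePath (colourClass c j) 3) : n < ramseyM k 3 := by
  by_contra h
  push Not at h
  have := Nat.sInf_mem ⟨_, ramsey_set_nonempty k⟩
  obtain ⟨j, hj⟩ := this n h c
  exact hc j hj

lemma no_path_of_sides {V : Type} {G : SimpleGraph V} (high : V → Prop)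
    (h1 : ∀ u v, G.Adj u v → (high u ∧ ¬ high v) ∨ (high v ∧ ¬ high u))
    (h2 : ∀ u v, ¬ high u → high v → vdeg G u < vdeg G v) :
    ¬ HasDegreeMonotonePath G 3 := by
  rintro ⟨p, -, hp⟩
  obtain ⟨ha, hb⟩ := hp 0 1 rfl
  obtain ⟨ha', hb'⟩ := hp 1 2 rfl
  by_cases h : high (p 1)
  · rcases h1 _ _ ha' with ⟨-, h'⟩ | ⟨-, h'⟩
    · exact absurd (h2 _ _ h' h) (by omega)
    · exact h' h
  · rcases h1 _ _ ha with ⟨h', -⟩ | ⟨h', -⟩
    · exact absurd (h2 _ _ h h') (by omega)
    · exact h h'

/-- Every set of `I` containing a point: there are `2^(|I|-1)` of them. -/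
lemma card_filter_mem {I : Type} [Fintype I] [DecidableEq I] (i : I) :
    ((Finset.univ : Finset (Finset I)).filter (fun B => i ∈ B)).card = 2 ^ (Fintype.card I - 1) := by
  have : (Finset.univ : Finset (Finset I)).filter (fun B => i ∈ B)
      = ((Finset.univ : Finset I).erase i).powerset.image (insert i) := by
    ext B
    simp only [Finset.mem_filter, Finset.mem_univ, true_and, Finset.mem_image, Finset.mem_powerset]
    constructor
    · intro h
      exact ⟨B.erase i, Finset.erase_subset_erase i (Finset.subset_univ B), Finset.insert_erase h⟩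
    · rintro ⟨C, -, rfl⟩
      exact Finset.mem_insert_self i C
  rw [this, Finset.card_image_of_injOn, Finset.card_powerset, Finset.card_erase_of_mem
    (Finset.mem_univ i), Finset.card_univ]
  intro A hA B hB h
  simp only [Finset.coe_powerset, Set.mem_preimage, Set.mem_powerset_iff, Finset.coe_subset] at hA hB
  have hiA : i ∉ A := fun h' => Finset.notMem_erase i _ (hA h')
  have hiB : i ∉ B := fun h' => Finset.notMem_erase i _ (hB h')
  have := congrArg (fun S => Finset.erase S i) h
  simpa [Finset.erase_insert hiA, Finset.erase_insert hiB] using this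

lemma exists_label {I : Type} [Fintype I] [DecidableEq I] {β : I → Type} [∀ i, Fintype (β i)]
    [∀ i, DecidableEq (β i)] (hne : ∀ i, Nonempty (β i)) (hI : Nonempty I)
    (hcard : Fintype.card (Σ i, β i) ≤ 2 ^ (Fintype.card I - 1)) :
    ∃ c : Finset I → Σ i, β i, (∀ B : Finset I, B.Nonempty → (c B).1 ∈ B) ∧
      ∀ j : Σ i, β i, ∃ B : Finset I, B.Nonempty ∧ c B = j := by
  classical
  have hall : ∃ f : (Σ i, β i) → Finset I, Function.Injective f ∧
      ∀ j, f j ∈ (Finset.univ : Finset (Finset I)).filter (fun B => j.1 ∈ B) := by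
    rw [← Finset.all_card_le_biUnion_card_iff_exists_injective]
    intro s
    rcases s.eq_empty_or_nonempty with rfl | ⟨j, hj⟩
    · simp
    · calc s.card ≤ Fintype.card (Σ i, β i) := Finset.card_le_univ s
        _ ≤ 2 ^ (Fintype.card I - 1) := hcard
        _ = ((Finset.univ : Finset (Finset I)).filter (fun B => j.1 ∈ B)).card :=
            (card_filter_mem j.1).symm
        _ ≤ _ := Finset.card_le_card
            (Finset.subset_biUnion_of_mem
              (fun j : Σ i, β i => (Finset.univ : Finset (Finset I)).filter (fun B => j.1 ∈ B)) hj)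
  obtain ⟨f, hf, hfm⟩ := hall
  simp only [Finset.mem_filter, Finset.mem_univ, true_and] at hfm
  let a : ∀ i, β i := fun i => (hne i).some
  refine ⟨fun B => if h : ∃ j, f j = B then h.choose else
    if h' : B.Nonempty then ⟨h'.choose, a _⟩ else ⟨hI.some, a _⟩, ?_, ?_⟩
  · intro B hB
    dsimp only
    split_ifs with h
    · have := hfm h.choose
      rw [h.choose_spec] at this
      exact this
    · exact hB.choose_spec
  · intro j
    refine ⟨f j, ⟨j.1, hfm j⟩, ?_⟩
    have h : ∃ j', f j' = f j := ⟨j, rfl⟩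
    simp only [dif_pos h]
    exact hf h.choose_spec

section Blocks

set_option linter.unusedSectionVars false

variable {I : Type} [Fintype I] [DecidableEq I] {β : I → Type} [∀ i, Fintype (β i)]
  [∀ i, DecidableEq (β i)]

/-- a deterministic choice of an element of `D`, preferring `d`. -/
noncomputable def pick {i : I} (D : Finset (β i)) (d : β i) : β i :=
  if d ∈ D then d else if h : D.Nonempty then h.choose else d

lemma pick_mem {i : I} {D : Finset (β i)} (hD : D.Nonempty) (d : β i) : pick D d ∈ D := by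
  unfold pick
  split_ifs with h
  · exact h
  · exact hD.choose_spec

lemma pick_of_mem {i : I} {D : Finset (β i)} {d : β i} (h : d ∈ D) : pick D d = d := by
  unfold pick
  rw [if_pos h]

/-- the blocks on which a difference pattern is nonempty -/
def supp (D : ∀ i, Finset (β i)) : Finset I := Finset.univ.filter fun i => (D i).Nonempty

/-- the colour of a difference pattern -/
noncomputable def kap (c : Finset I → Σ i, β i) (D : ∀ i, Finset (β i)) : Σ i, β i :=
  ⟨(c (supp D)).1, pick (D (c (supp D)).1) (c (supp D)).2⟩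

lemma kap_mem {c : Finset I → Σ i, β i} (hc : ∀ B : Finset I, B.Nonempty → (c B).1 ∈ B)
    {D : ∀ i, Finset (β i)} (hD : D ≠ ⊥) : (kap c D).2 ∈ D (kap c D).1 := by
  have h1 : (supp D).Nonempty := by
    by_contra h
    apply hD
    funext i
    rw [Finset.not_nonempty_iff_eq_empty] at h
    by_contra h2
    have : i ∈ supp D := by
      simp only [supp, Finset.mem_filter, Finset.mem_univ, true_and]
      exact Finset.nonempty_iff_ne_empty.mpr h2
    rw [h] at this
    simp at this
  have h2 := hc _ h1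
  have h3 : (D (c (supp D)).1).Nonempty := by
    simpa [supp] using h2
  exact pick_mem h3 _

/-- the set of differences seen at `u` in colour `j` -/
def diffs (c : Finset I → Σ i, β i) (u : ∀ i, Finset (β i)) (j : Σ i, β i) :
    Set (∀ i, Finset (β i)) :=
  {D | D ≠ ⊥ ∧ kap c D = j ∧ ∀ i, D i ≠ (u i)ᶜ}

/-- the block-wise swap -/
def swp (u v : ∀ i, Finset (β i)) (i₀ : I) (D : ∀ i, Finset (β i)) : ∀ i, Finset (β i) :=
  fun i => if i = i₀ then D i else Equiv.swap ((u i)ᶜ) ((v i)ᶜ) (D i)

lemma swp_invol (u v : ∀ i, Finset (β i)) (i₀ : I) (D : ∀ i, Finset (β i)) :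
    swp u v i₀ (swp u v i₀ D) = D := by
  funext i
  unfold swp
  by_cases h : i = i₀
  · simp [h]
  · simp [h]

lemma swp_inj (u v : ∀ i, Finset (β i)) (i₀ : I) : Function.Injective (swp u v i₀) := by
  intro D D' h
  rw [← swp_invol u v i₀ D, h, swp_invol]

lemma swap_nonempty_iff {α : Type*} [DecidableEq α] {A B D : Finset α} (hA : A.Nonempty)
    (hB : B.Nonempty) : (Equiv.swap A B D).Nonempty ↔ D.Nonempty := by
  by_cases h1 : D = A
  · subst h1; simp [hA, hB]
  · by_cases h2 : D = B
    · subst h2; simp [hA, hB]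
    · rw [Equiv.swap_apply_of_ne_of_ne h1 h2]

lemma supp_swp {u v : ∀ i, Finset (β i)} (hu : ∀ i, u i ≠ Finset.univ)
    (hv : ∀ i, v i ≠ Finset.univ) (i₀ : I) (D : ∀ i, Finset (β i)) :
    supp (swp u v i₀ D) = supp D := by
  ext i
  simp only [supp, Finset.mem_filter, Finset.mem_univ, true_and]
  unfold swp
  by_cases h : i = i₀
  · simp [h]
  · rw [if_neg h]
    apply swap_nonempty_iff
    · rw [Finset.nonempty_iff_ne_empty]
      intro h'
      exact hu i (Finset.compl_eq_empty_iff _ |>.mp h')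
    · rw [Finset.nonempty_iff_ne_empty]
      intro h'
      exact hv i (Finset.compl_eq_empty_iff _ |>.mp h')

lemma bot_iff_supp (D : ∀ i, Finset (β i)) : D = ⊥ ↔ supp D = ∅ := by
  constructor
  · rintro rfl
    ext i
    simp [supp]
  · intro h
    funext i
    by_contra h2
    have : i ∈ supp D := by
      simp only [supp, Finset.mem_filter, Finset.mem_univ, true_and]
      exact Finset.nonempty_iff_ne_empty.mpr h2
    rw [h] at this
    simp at this

lemma diffs_lt {c : Finset I → Σ i, β i} (hc : ∀ B : Finset I, B.Nonempty → (c B).1 ∈ B)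
    (hc2 : ∀ j : Σ i, β i, ∃ B : Finset I, B.Nonempty ∧ c B = j)
    (hβ : ∀ i, 2 ≤ Fintype.card (β i))
    {u v : ∀ i, Finset (β i)} (hu : ∀ i, u i ≠ Finset.univ) (hv : ∀ i, v i ≠ Finset.univ)
    (j : Σ i, β i) (huj : j.2 ∉ u j.1) (hvj : j.2 ∈ v j.1) :
    (diffs c u j).ncard < (diffs c v j).ncard := by
  classical
  have key : swp u v j.1 '' (diffs c u j) ⊆ diffs c v j := by
    rintro _ ⟨D, ⟨hD0, hD1, hD2⟩, rfl⟩
    have hs := supp_swp hu hv j.1 D
    have hk1 : (c (supp D)).1 = j.1 := by rw [← hD1]; rfl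
    refine ⟨?_, ?_, ?_⟩
    · rw [Ne, bot_iff_supp, hs, ← bot_iff_supp]; exact hD0
    · refine Eq.trans ?_ hD1
      have h3 : swp u v j.1 D (c (supp D)).1 = D (c (supp D)).1 := by
        unfold swp
        rw [if_pos hk1]
      unfold kap
      rw [hs, h3]
    · intro i
      by_cases h : i = j.1
      · subst h
        unfold swp
        rw [if_pos rfl]
        intro h'
        have : j.2 ∈ D j.1 := by
          have := kap_mem hc hD0
          rw [hD1] at this
          exact this
        rw [h'] at this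
        simp at this
        exact this hvj
      · unfold swp
        rw [if_neg h]
        intro h'
        apply hD2 i
        have := congrArg (Equiv.swap ((u i)ᶜ) ((v i)ᶜ)) h'
        simpa using this
  obtain ⟨B, hB, hcB⟩ := hc2 j
  -- the extra element
  have hex : ∀ i, ∃ E : Finset (β i), E.Nonempty ∧ E ≠ (v i)ᶜ := by
    intro i
    obtain ⟨a, b, hab⟩ := Fintype.one_lt_card_iff.mp (hβ i)
    by_cases h : ({a} : Finset (β i)) = (v i)ᶜ
    · refine ⟨{b}, Finset.singleton_nonempty b, ?_⟩
      rw [← h]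
      intro h'
      exact hab (Finset.singleton_injective h').symm
    · exact ⟨{a}, Finset.singleton_nonempty a, h⟩
  choose E hE1 hE2 using hex
  let D₀ : ∀ i, Finset (β i) := fun i =>
    if i = j.1 then (u i)ᶜ else if i ∈ B then E i else ∅
  have hjB : j.1 ∈ B := by
    have := hc B hB
    rw [hcB] at this
    exact this
  have hsD₀ : supp D₀ = B := by
    ext i
    simp only [supp, Finset.mem_filter, Finset.mem_univ, true_and, D₀]
    by_cases h : i = j.1
    · rw [if_pos h]
      constructor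
      · intro _; rw [h]; exact hjB
      · intro _
        rw [Finset.nonempty_iff_ne_empty]
        intro h'
        exact hu i (Finset.compl_eq_empty_iff _ |>.mp h')
    · rw [if_neg h]
      by_cases h2 : i ∈ B
      · rw [if_pos h2]; simp [h2, hE1 i]
      · rw [if_neg h2]; simp [h2]
  have hvne : ∀ i, (v i)ᶜ ≠ ∅ := by
    intro i h'
    exact hv i (Finset.compl_eq_empty_iff _ |>.mp h')
  have hD₀mem : D₀ ∈ diffs c v j := by
    refine ⟨?_, ?_, ?_⟩
    · rw [Ne, bot_iff_supp, hsD₀]
      exact Finset.nonempty_iff_ne_empty.mp hB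
    · unfold kap
      rw [hsD₀, hcB]
      have h1 : j.2 ∈ D₀ j.1 := by
        simp only [D₀, if_true]
        simp [huj]
      rw [pick_of_mem h1]
    · intro i
      simp only [D₀]
      by_cases h : i = j.1
      · rw [if_pos h]
        subst h
        intro h'
        have : j.2 ∈ (u j.1)ᶜ := by simp [huj]
        rw [h'] at this
        simp at this
        exact this hvj
      · rw [if_neg h]
        by_cases h2 : i ∈ B
        · rw [if_pos h2]; exact hE2 i
        · rw [if_neg h2]; exact (hvne i).symm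
  have hD₀not : D₀ ∉ swp u v j.1 '' (diffs c u j) := by
    rintro ⟨D, ⟨hD0, hD1, hD2⟩, h⟩
    apply hD2 j.1
    have := congrFun h j.1
    simp only [swp, if_true, D₀] at this
    exact this
  rw [← Set.ncard_image_of_injective (diffs c u j) (swp_inj u v j.1)]
  apply Set.ncard_lt_ncard
  · refine ⟨key, ?_⟩
    intro h
    exact hD₀not (h hD₀mem)
  · exact Set.toFinite _


/-- the vertices of the block construction -/
abbrev BV (I : Type) [Fintype I] [DecidableEq I] (β : I → Type) [∀ i, Fintype (β i)]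
    [∀ i, DecidableEq (β i)] : Type :=
  {u : ∀ i, Finset (β i) // ∀ i, u i ≠ Finset.univ}

/-- the neighbours of `u` in colour `j` -/
def nb (c : Finset I → Σ i, β i) (u : BV I β) (j : Σ i, β i) : Set (BV I β) :=
  {w | w ≠ u ∧ kap c (u.1 ∆ w.1) = j}

lemma nb_ncard (c : Finset I → Σ i, β i) (u : BV I β) (j : Σ i, β i) :
    (nb c u j).ncard = (diffs c u.1 j).ncard := by
  have hinj : Function.Injective (fun w : BV I β => u.1 ∆ w.1) := by
    intro w w' h
    exact Subtype.ext (symmDiff_right_injective u.1 h)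
  rw [← Set.ncard_image_of_injective (nb c u j) hinj]
  congr 1
  ext D
  constructor
  · rintro ⟨w, ⟨hw1, hw2⟩, rfl⟩
    refine ⟨?_, hw2, ?_⟩
    · intro h
      apply hw1
      have := symmDiff_eq_bot.mp h
      exact Subtype.ext this.symm
    · intro i h
      apply w.2 i
      have h' : u.1 i ∆ w.1 i = (u.1 i)ᶜ := h
      have h2 : u.1 i ∆ (u.1 i ∆ w.1 i) = u.1 i ∆ (u.1 i)ᶜ := by rw [h']
      rw [symmDiff_symmDiff_cancel_left] at h2
      rw [h2]
      simp
  · rintro ⟨hD0, hD1, hD2⟩
    refine ⟨⟨u.1 ∆ D, ?_⟩, ⟨?_, ?_⟩, ?_⟩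
    · intro i h
      apply hD2 i
      have h' : u.1 i ∆ D i = Finset.univ := h
      have h2 : u.1 i ∆ (u.1 i ∆ D i) = u.1 i ∆ Finset.univ := by rw [h']
      rw [symmDiff_symmDiff_cancel_left] at h2
      rw [h2]
      exact symmDiff_top (u.1 i)
    · intro h
      apply hD0
      have := congrArg Subtype.val h
      simpa using this
    · show kap c (u.1 ∆ (u.1 ∆ D)) = j
      rw [symmDiff_symmDiff_cancel_left]
      exact hD1
    · show u.1 ∆ (u.1 ∆ D) = D
      rw [symmDiff_symmDiff_cancel_left]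

lemma nb_lt {c : Finset I → Σ i, β i} (hc : ∀ B : Finset I, B.Nonempty → (c B).1 ∈ B)
    (hc2 : ∀ j : Σ i, β i, ∃ B : Finset I, B.Nonempty ∧ c B = j)
    (hβ : ∀ i, 2 ≤ Fintype.card (β i)) {u v : BV I β} (j : Σ i, β i)
    (huj : j.2 ∉ u.1 j.1) (hvj : j.2 ∈ v.1 j.1) :
    (nb c u j).ncard < (nb c v j).ncard := by
  rw [nb_ncard, nb_ncard]
  exact diffs_lt hc hc2 hβ u.2 v.2 j huj hvj

/-- adjacent vertices in colour `j` differ at `j` -/
lemma nb_differ {c : Finset I → Σ i, β i} (hc : ∀ B : Finset I, B.Nonempty → (c B).1 ∈ B)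
    {u w : BV I β} {j : Σ i, β i} (h : w ∈ nb c u j) :
    (j.2 ∈ u.1 j.1 ∧ j.2 ∉ w.1 j.1) ∨ (j.2 ∈ w.1 j.1 ∧ j.2 ∉ u.1 j.1) := by
  obtain ⟨h1, h2⟩ := h
  have h3 : u.1 ∆ w.1 ≠ ⊥ := by
    intro h
    apply h1
    exact Subtype.ext (symmDiff_eq_bot.mp h).symm
  have h4 := kap_mem hc h3
  rw [h2] at h4
  have h5 : j.2 ∈ u.1 j.1 ∆ w.1 j.1 := h4
  rw [Finset.mem_symmDiff] at h5
  exact h5

end Blocks


/-- Transfer of the block construction: the product of the blocks, each without its full set,
carries a colouring of its complete graph with no degree-monotone path of order three. -/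
lemma card_lt_ramseyM {I : Type} [Fintype I] [DecidableEq I] {β : I → Type} [∀ i, Fintype (β i)]
    [∀ i, DecidableEq (β i)] (hI : Nonempty I) (hβ : ∀ i, 2 ≤ Fintype.card (β i))
    (hcard : Fintype.card (Σ i, β i) ≤ 2 ^ (Fintype.card I - 1)) :
    Fintype.card (BV I β) < ramseyM (Fintype.card (Σ i, β i)) 3 := by
  classical
  have hne : ∀ i, Nonempty (β i) := fun i => by
    have := hβ i
    exact Fintype.card_pos_iff.mp (by omega)
  obtain ⟨c, hc, hc2⟩ := exists_label hne hI hcard
  let eV : Fin (Fintype.card (BV I β)) ≃ BV I β := (Fintype.equivFin (BV I β)).symm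
  let eC : (Σ i, β i) ≃ Fin (Fintype.card (Σ i, β i)) := Fintype.equivFin _
  let col : Sym2 (Fin (Fintype.card (BV I β))) → Fin (Fintype.card (Σ i, β i)) :=
    Sym2.lift ⟨fun u v => eC (kap c ((eV u).1 ∆ (eV v).1)), by
      intro u v
      exact congrArg (fun D => eC (kap c D)) (symmDiff_comm _ _)⟩
  let C : EdgeColouring (Fintype.card (BV I β)) (Fintype.card (Σ i, β i)) := fun e => col e.1
  have hnb : ∀ (j : Fin (Fintype.card (Σ i, β i))) (u v : Fin (Fintype.card (BV I β))),
      (colourClass C j).Adj u v ↔ eV v ∈ nb c (eV u) (eC.symm j) := by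
    intro j u v
    constructor
    · rintro ⟨h, hC⟩
      refine ⟨?_, ?_⟩
      · intro h'
        have := eV.injective h'
        subst this
        simp at h
      · rw [← hC]
        simp [C, col]
    · rintro ⟨h1, h2⟩
      refine ⟨?_, ?_⟩
      · have : u ≠ v := by rintro rfl; exact h1 rfl
        simpa using this
      · simp [C, col, h2]
  have hdeg : ∀ (j : Fin (Fintype.card (Σ i, β i))) (u : Fin (Fintype.card (BV I β))),
      vdeg (colourClass C j) u = (nb c (eV u) (eC.symm j)).ncard := by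
    intro j u
    unfold vdeg
    rw [← Set.ncard_image_of_injective _ eV.injective]
    congr 1
    ext w
    constructor
    · rintro ⟨v, hv, rfl⟩
      exact (hnb j u v).mp hv
    · intro hw
      refine ⟨eV.symm w, ?_, by simp⟩
      show (colourClass C j).Adj u (eV.symm w)
      rw [hnb]
      simpa using hw
  apply lt_ramseyM C
  intro j
  apply no_path_of_sides (fun v => (eC.symm j).2 ∈ (eV v).1 (eC.symm j).1)
  · intro u v huv
    rw [hnb] at huv
    exact nb_differ hc huv
  · intro u v hu hv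
    rw [hdeg, hdeg]
    exact nb_lt hc hc2 hβ _ hu hv

lemma card_BV {I : Type} [Fintype I] [DecidableEq I] {β : I → Type} [∀ i, Fintype (β i)]
    [∀ i, DecidableEq (β i)] :
    Fintype.card (BV I β) = ∏ i, (2 ^ Fintype.card (β i) - 1) := by
  classical
  have e : BV I β ≃ ∀ i, {u : Finset (β i) // u ≠ Finset.univ} :=
    { toFun := fun u i => ⟨u.1 i, u.2 i⟩
      invFun := fun u => ⟨fun i => (u i).1, fun i => (u i).2⟩
      left_inv := fun u => rfl
      right_inv := fun u => rfl }
  rw [Fintype.card_congr e, Fintype.card_pi]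
  apply Finset.prod_congr rfl
  intro i _
  rw [Fintype.card_subtype_compl, Fintype.card_finset]
  simp

/-- numeric form of the lower bound -/
lemma lower (k r : ℕ) (hr : 2 ≤ r) (hrk : r * r ≤ k) (hk : k ≤ 2 ^ (r - 1)) :
    (2 : ℝ) ^ k * (1 - r * (1 / 2) ^ r) ≤ ramseyM k 3 := by
  classical
  let t : Fin r → ℕ := fun i => if (i : ℕ) = 0 then k - (r - 1) * r else r
  have hkr : (r - 1) * r + r ≤ k := by
    have : (r - 1) * r + r = r * r := by
      obtain ⟨s, rfl⟩ : ∃ s, r = s + 1 := ⟨r - 1, by omega⟩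
      simp; ring
    omega
  have ht : ∀ i, r ≤ t i := by
    intro i
    simp only [t]
    split_ifs <;> omega
  have hsum : ∑ i, t i = k := by
    obtain ⟨s, rfl⟩ : ∃ s, r = s + 1 := ⟨r - 1, by omega⟩
    rw [Fin.sum_univ_succ]
    simp only [t, Fin.val_zero, if_true, Fin.val_succ, Nat.add_one_ne_zero, if_false,
      Finset.sum_const, Finset.card_univ, Fintype.card_fin, smul_eq_mul]
    simp only [Nat.add_sub_cancel] at hkr ⊢
    omega
  have hcardC : Fintype.card (Σ i : Fin r, Fin (t i)) = k := by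
    rw [Fintype.card_sigma]
    simpa using hsum
  have h1 := card_lt_ramseyM (I := Fin r) (β := fun i => Fin (t i)) ⟨⟨0, by omega⟩⟩
    (by intro i; have := ht i; simp only [Fintype.card_fin]; omega)
    (by rw [hcardC]; simpa using hk)
  rw [hcardC, card_BV] at h1
  simp only [Fintype.card_fin] at h1
  have h2 : (2 : ℝ) ^ k * (1 - r * (1 / 2) ^ r) ≤ ((∏ i, (2 ^ t i - 1) : ℕ) : ℝ) := by
    have h3 : ((∏ i, (2 ^ t i - 1) : ℕ) : ℝ) = 2 ^ k * ∏ i, (1 - (1 / 2 : ℝ) ^ t i) := by
      push_cast
      have h4 : (2 : ℝ) ^ k = ∏ i, (2 : ℝ) ^ t i := by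
        rw [Finset.prod_pow_eq_pow_sum, hsum]
      rw [h4, ← Finset.prod_mul_distrib]
      apply Finset.prod_congr rfl
      intro i _
      rw [Nat.cast_sub (Nat.one_le_two_pow)]
      push_cast
      have : (2 : ℝ) ^ t i * (1 / 2) ^ t i = 1 := by
        rw [← mul_pow]; norm_num
      linear_combination this
    rw [h3]
    apply mul_le_mul_of_nonneg_left _ (by positivity)
    have h5 : ∏ _i : Fin r, (1 - (1 / 2 : ℝ) ^ r) ≤ ∏ i, (1 - (1 / 2 : ℝ) ^ t i) := by
      apply Finset.prod_le_prod
      · intro i _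
        have : (1 / 2 : ℝ) ^ r ≤ 1 := pow_le_one₀ (by norm_num) (by norm_num)
        linarith
      · intro i _
        have : (1 / 2 : ℝ) ^ t i ≤ (1 / 2 : ℝ) ^ r :=
          pow_le_pow_of_le_one (by norm_num) (by norm_num) (ht i)
        linarith
    refine le_trans ?_ h5
    rw [Finset.prod_const, Finset.card_univ, Fintype.card_fin]
    have h6 := one_add_mul_le_pow (a := -(1 / 2 : ℝ) ^ r) (by
      have : (1 / 2 : ℝ) ^ r ≤ 1 := pow_le_one₀ (by norm_num) (by norm_num)
      linarith) r
    calc 1 - (r : ℝ) * (1 / 2) ^ r = 1 + (r : ℝ) * (-(1 / 2) ^ r) := by ring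
      _ ≤ (1 + -(1 / 2 : ℝ) ^ r) ^ r := h6
      _ = (1 - (1 / 2 : ℝ) ^ r) ^ r := by ring
  calc (2 : ℝ) ^ k * (1 - r * (1 / 2) ^ r) ≤ ((∏ i, (2 ^ t i - 1) : ℕ) : ℝ) := h2
    _ ≤ ramseyM k 3 := by exact_mod_cast h1.le

lemma sq_le_two_pow {r : ℕ} (hr : 7 ≤ r) : (r + 1) * (r + 1) ≤ 2 ^ (r - 1) := by
  induction r, hr using Nat.le_induction with
  | base => norm_num
  | succ n hn ih =>
    obtain ⟨m, rfl⟩ : ∃ m, n = m + 1 := ⟨n - 1, by omega⟩
    simp only [Nat.add_sub_cancel] at ih ⊢
    rw [pow_succ]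
    nlinarith

/-- **The limit of `M_k(3) / 2^k` as `k → ∞` exists and equals `1`.** -/
theorem result : Filter.Tendsto (fun k : ℕ => (ramseyM k 3 : ℝ) / 2 ^ k) Filter.atTop (nhds 1) := by
  have hsqrt : Filter.Tendsto Nat.sqrt Filter.atTop Filter.atTop := by
    apply Filter.tendsto_atTop_atTop.mpr
    intro b
    refine ⟨b * b, fun a ha => ?_⟩
    exact Nat.le_sqrt.mpr ha
  have hlow : Filter.Tendsto (fun k : ℕ => 1 - (Nat.sqrt k : ℝ) * (1 / 2) ^ (Nat.sqrt k))
      Filter.atTop (nhds 1) := by
    have h1 : Filter.Tendsto (fun n : ℕ => (n : ℝ) * (1 / 2) ^ n) Filter.atTop (nhds 0) :=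
      tendsto_self_mul_const_pow_of_lt_one (by norm_num) (by norm_num)
    have h2 := h1.comp hsqrt
    have h3 := (tendsto_const_nhds (x := (1 : ℝ))).sub h2
    simpa using h3
  have hup : Filter.Tendsto (fun k : ℕ => 1 + (1 / 2 : ℝ) ^ k) Filter.atTop (nhds 1) := by
    have h1 : Filter.Tendsto (fun n : ℕ => (1 / 2 : ℝ) ^ n) Filter.atTop (nhds 0) :=
      tendsto_pow_atTop_nhds_zero_of_lt_one (by norm_num) (by norm_num)
    have h3 := (tendsto_const_nhds (x := (1 : ℝ))).add h1
    simpa using h3
  refine tendsto_of_tendsto_of_tendsto_of_le_of_le' hlow hup ?_ ?_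
  · filter_upwards [Filter.eventually_ge_atTop 64] with k hk
    have hr : 7 ≤ Nat.sqrt k := Nat.le_sqrt.mpr (by omega)
    have h := lower k (Nat.sqrt k) (by omega) (Nat.sqrt_le k) (by
      have h1 := Nat.lt_succ_sqrt k
      have h2 := sq_le_two_pow hr
      simp only [Nat.succ_eq_add_one] at h1
      omega)
    rw [le_div_iff₀ (by positivity)]
    linarith
  · filter_upwards with k
    have h := ramseyM_le k
    rw [div_le_iff₀ (by positivity)]
    have h' : (ramseyM k 3 : ℝ) ≤ 2 ^ k + 1 := by exact_mod_cast h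
    have : (1 / 2 : ℝ) ^ k * 2 ^ k = 1 := by rw [← mul_pow]; norm_num
    linarith

end Pool.Agent.Results.MP_7de56e_co.LimitOne
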